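import Pool.Agent.HAR.Stmts

/-!
# Squad HAR, row FOU: small ball probability by finite Fourier analysis
-/

namespace Pool.Agent.HAR.H30

open Finset Pool.Agent.HAR

noncomputable section

/-- `exp (2πi t)` -/
def ee (t : ℝ) : ℂ := Complex.exp (2 * Real.pi * t * Complex.I)

theorem ee_add (s t : ℝ) : ee (s + t) = ee s * ee t := by
  unfold ee
  rw [← Complex.exp_add]
  congr 1
  push_cast
  ring

theorem ee_zero : ee 0 = 1 := by
  unfold ee
  simp

theorem ee_int (m : ℤ) : ee m = 1 := by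
  unfold ee
  rw [show (2 * (Real.pi : ℂ) * ((m : ℝ) : ℂ) * Complex.I) = m * (2 * Real.pi * Complex.I) by
    push_cast; ring]
  exact Complex.exp_int_mul_two_pi_mul_I m

theorem ee_sum {α : Type*} (s : Finset α) (f : α → ℝ) : ee (∑ i ∈ s, f i) = ∏ i ∈ s, ee (f i) := by
  classical
  induction s using Finset.induction_on with
  | empty => simp [ee_zero]
  | insert a s ha ih => rw [sum_insert ha, prod_insert ha, ee_add, ih]

theorem ee_nat_mul (n : ℕ) (t : ℝ) : ee (n * t) = ee t ^ n := by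
  unfold ee
  rw [← Complex.exp_nat_mul]
  congr 1
  push_cast
  ring

theorem norm_ee (t : ℝ) : ‖ee t‖ = 1 := by
  unfold ee
  rw [show (2 * (Real.pi : ℂ) * (t : ℂ) * Complex.I) = ((2 * Real.pi * t : ℝ) : ℂ) * Complex.I by
    push_cast; ring]
  exact Complex.norm_exp_ofReal_mul_I _

theorem norm_one_add_ee (t : ℝ) : ‖1 + ee t‖ = 2 * |Real.cos (Real.pi * t)| := by
  have h : 1 + ee t = ee (t / 2) * (2 * Real.cos (Real.pi * t) : ℝ) := by
    have h1 : ee (t / 2) = Complex.exp ((Real.pi * t : ℝ) * Complex.I) := by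
      unfold ee
      congr 1
      push_cast
      ring
    have h2 : ee t = Complex.exp ((Real.pi * t : ℝ) * Complex.I) *
        Complex.exp ((Real.pi * t : ℝ) * Complex.I) := by
      unfold ee
      rw [← Complex.exp_add]
      congr 1
      push_cast
      ring
    have h3 : (1 : ℂ) = Complex.exp ((Real.pi * t : ℝ) * Complex.I) *
        Complex.exp (-((Real.pi * t : ℝ) * Complex.I)) := by
      rw [← Complex.exp_add, add_neg_cancel, Complex.exp_zero]
    have h4 : ((2 * Real.cos (Real.pi * t) : ℝ) : ℂ) =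
        Complex.exp ((Real.pi * t : ℝ) * Complex.I) +
          Complex.exp (-((Real.pi * t : ℝ) * Complex.I)) := by
      push_cast
      rw [Complex.two_cos]
      ring_nf
    rw [h1, h2, h4]
    nth_rewrite 1 [h3]
    ring
  rw [h, norm_mul, norm_ee, one_mul, Complex.norm_real, Real.norm_eq_abs, abs_mul, abs_two]

/-- the sum over the residues -/
theorem root (Q : ℕ) (hQ : 0 < Q) (m : ℤ) :
    (Q : ℂ)⁻¹ * ∑ θ : Fin Q, ee (((θ : ℕ) : ℝ) * m / Q) = 0 ∨
      (Q : ℂ)⁻¹ * ∑ θ : Fin Q, ee (((θ : ℕ) : ℝ) * m / Q) = 1 := by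
  have hQ0 : (Q : ℂ) ≠ 0 := by exact_mod_cast hQ.ne'
  have hQr : (Q : ℝ) ≠ 0 := by exact_mod_cast hQ.ne'
  have h1 : ∀ θ : Fin Q, ee (((θ : ℕ) : ℝ) * m / Q) = ee (m / Q) ^ (θ : ℕ) := by
    intro θ
    rw [← ee_nat_mul, mul_div_assoc]
  have h2 : ∑ θ : Fin Q, ee (((θ : ℕ) : ℝ) * m / Q) = ∑ i ∈ range Q, ee (m / Q) ^ i := by
    rw [sum_congr rfl fun θ _ => h1 θ]
    exact Fin.sum_univ_eq_sum_range (fun i => ee (m / Q) ^ i) Q
  rw [h2]
  by_cases h : ee ((m : ℝ) / Q) = 1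
  · right
    rw [h]
    simp [hQ0]
  · left
    rw [geom_sum_eq h, ← ee_nat_mul, mul_div_cancel₀ _ hQr, ee_int, sub_self, zero_div, mul_zero]

theorem root_zero (Q : ℕ) (hQ : 0 < Q) :
    (Q : ℂ)⁻¹ * ∑ θ : Fin Q, ee (((θ : ℕ) : ℝ) * ((0 : ℤ) : ℝ) / Q) = 1 := by
  have hQ0 : (Q : ℂ) ≠ 0 := by exact_mod_cast hQ.ne'
  simp [ee_zero, hQ0]

theorem fou : FouStmt := by
  classical
  intro F J _ _ _ Q v y hQ
  have hQr : ∀ j, (Q j : ℝ) ≠ 0 := fun j => by exact_mod_cast (hQ j).ne'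
  -- the integers
  set m : (F → Bool) → J → ℤ := fun x j => (∑ S, if x S = true then v S j else 0) - y j with hm
  set G : (F → Bool) → ℂ := fun x => ∏ j, ((Q j : ℂ)⁻¹ * ∑ θ : Fin (Q j),
    ee (((θ : ℕ) : ℝ) * m x j / Q j)) with hG
  have hG01 : ∀ x, G x = 0 ∨ G x = 1 := by
    intro x
    by_cases h : ∃ j, (Q j : ℂ)⁻¹ * ∑ θ : Fin (Q j), ee (((θ : ℕ) : ℝ) * m x j / Q j) = 0
    · obtain ⟨j, hj⟩ := h
      exact Or.inl (prod_eq_zero (mem_univ j) hj)
    · right
      push Not at h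
      exact prod_eq_one fun j _ => (root (Q j) (hQ j) (m x j)).resolve_left (h j)
  have hG1 : ∀ x, (∀ j, ∑ S, (if x S = true then v S j else 0) = y j) → G x = 1 := by
    intro x hx
    refine prod_eq_one fun j _ => ?_
    have h0 : m x j = 0 := by rw [hm]; simp [hx j]
    rw [h0]
    exact root_zero (Q j) (hQ j)
  -- counting
  have hcard : (Nat.card {x : F → Bool // ∀ j, ∑ S, (if x S = true then v S j else 0) = y j} : ℝ) ≤
      ‖∑ x : F → Bool, G x‖ := by
    rw [Nat.card_eq_fintype_card, Fintype.card_subtype, card_filter]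
    push_cast
    calc ∑ x : F → Bool, (if ∀ j, ∑ S, (if x S = true then v S j else 0) = y j then (1 : ℝ) else 0)
        ≤ ∑ x : F → Bool, (G x).re := by
          refine sum_le_sum fun x _ => ?_
          split_ifs with h
          · rw [hG1 x h]; simp
          · rcases hG01 x with h' | h' <;> rw [h'] <;> simp
      _ = (∑ x : F → Bool, G x).re := by rw [Complex.re_sum]
      _ ≤ ‖∑ x : F → Bool, G x‖ := Complex.re_le_norm _
  -- expansion
  have hGx : ∀ x, G x = (∏ j, (Q j : ℂ))⁻¹ * ∑ θ : (∀ j, Fin (Q j)),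
      ee (∑ j, ((θ j : ℕ) : ℝ) * m x j / Q j) := by
    intro x
    rw [hG]
    simp only
    rw [prod_mul_distrib, prod_inv_distrib]
    congr 1
    rw [prod_univ_sum, Fintype.piFinset_univ]
    exact sum_congr rfl fun θ _ => (ee_sum _ _).symm
  have hphase : ∀ (θ : ∀ j, Fin (Q j)) (x : F → Bool), ee (∑ j, ((θ j : ℕ) : ℝ) * m x j / Q j) =
      ee (-∑ j, ((θ j : ℕ) : ℝ) * y j / Q j) *
        ∏ S, (if x S = true then ee (∑ j, ((θ j : ℕ) : ℝ) * v S j / Q j) else 1) := by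
    intro θ x
    have h1 : ∀ S, (if x S = true then ee (∑ j, ((θ j : ℕ) : ℝ) * v S j / Q j) else 1) =
        ee (if x S = true then (∑ j, ((θ j : ℕ) : ℝ) * v S j / Q j) else 0) := by
      intro S
      split_ifs
      · rfl
      · rw [ee_zero]
    rw [prod_congr rfl fun S _ => h1 S, ← ee_sum, ← ee_add]
    congr 1
    have h2 : ∀ S, (if x S = true then (∑ j, ((θ j : ℕ) : ℝ) * v S j / Q j) else 0) =
        ∑ j, ((θ j : ℕ) : ℝ) * ((if x S = true then v S j else 0 : ℤ) : ℝ) / Q j := by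
      intro S
      split_ifs <;> simp
    rw [sum_congr rfl fun S _ => h2 S, sum_comm, ← sum_neg_distrib, ← sum_add_distrib]
    refine sum_congr rfl fun j _ => ?_
    rw [hm]
    push_cast
    rw [← sum_div, ← mul_sum]
    ring
  have hsum : ∀ θ : (∀ j, Fin (Q j)), ‖∑ x : F → Bool, ee (∑ j, ((θ j : ℕ) : ℝ) * m x j / Q j)‖ =
      2 ^ Fintype.card F *
        ∏ S, |Real.cos (Real.pi * ∑ j, ((θ j : ℕ) : ℝ) * v S j / Q j)| := by
    intro θ
    rw [sum_congr rfl fun x _ => hphase θ x, ← mul_sum, norm_mul, norm_ee, one_mul]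
    have h1 : ∑ x : F → Bool, ∏ S, (if x S = true then ee (∑ j, ((θ j : ℕ) : ℝ) * v S j / Q j)
        else 1) = ∏ S, (1 + ee (∑ j, ((θ j : ℕ) : ℝ) * v S j / Q j)) := by
      have h2 : ∀ S, 1 + ee (∑ j, ((θ j : ℕ) : ℝ) * v S j / Q j) =
          ∑ b : Bool, (if b = true then ee (∑ j, ((θ j : ℕ) : ℝ) * v S j / Q j) else 1) := by
        intro S
        rw [Fintype.sum_bool]
        simp [add_comm]
      rw [prod_congr rfl fun S _ => h2 S, prod_univ_sum, Fintype.piFinset_univ]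
    rw [h1, norm_prod, prod_congr rfl fun S _ => norm_one_add_ee _, prod_mul_distrib]
    simp
  have hfin : ‖∑ x : F → Bool, G x‖ ≤ (∏ j, (Q j : ℝ))⁻¹ * (2 ^ Fintype.card F *
      ∑ θ : (∀ j, Fin (Q j)), ∏ S, |Real.cos (Real.pi * ∑ j, ((θ j : ℕ) : ℝ) * v S j / Q j)|) := by
    rw [sum_congr rfl fun x _ => hGx x, ← mul_sum, norm_mul, sum_comm]
    have h1 : ‖(∏ j, (Q j : ℂ))⁻¹‖ = (∏ j, (Q j : ℝ))⁻¹ := by
      rw [norm_inv, norm_prod]
      simp
    rw [h1]
    refine mul_le_mul_of_nonneg_left ?_ (inv_nonneg.2 (prod_nonneg fun j _ => Nat.cast_nonneg _))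
    refine (norm_sum_le _ _).trans ?_
    rw [mul_sum]
    exact sum_le_sum fun θ _ => (hsum θ).le
  unfold pr
  have hc : (Nat.card (F → Bool) : ℝ) = 2 ^ Fintype.card F := by
    rw [Nat.card_eq_fintype_card, Fintype.card_fun, Fintype.card_bool]
    push_cast
    rfl
  rw [hc, div_le_iff₀ (by positivity)]
  calc _ ≤ _ := hcard.trans hfin
    _ = _ := by ring

end

end Pool.Agent.HAR.H30
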